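import Pool.Agent.Helper38.TDM.Core

/-!
# Finitely additive measures and submeasures

Auxiliary file for the result `CountableAdditivity` of the page MP_917879_lc.
-/

set_option autoImplicit false

namespace Pool.Agent.Helper38.TDM

open Filter Topology Set
open scoped ENNReal

/-- What is left of `b` after removing `d 0, ..., d (n - 1)`. -/
def Rest {B : Type*} [BooleanAlgebra B] (d : ℕ → B) (b : B) (n : ℕ) : B :=
  b \ (Finset.range n).sup d

/-- The function `μ` is finitely additive. -/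
def FinAdditive {B : Type*} [BooleanAlgebra B] {G : Type*} [Add G] (μ : B → G) : Prop :=
  ∀ x y, Disjoint x y → μ (x ⊔ y) = μ x + μ y

/-- The function `φ` is a submeasure. -/
def Submeasure {B : Type*} [BooleanAlgebra B] (φ : B → ℝ≥0∞) : Prop :=
  φ ⊥ = 0 ∧ (∀ x y, x ≤ y → φ x ≤ φ y) ∧ ∀ x y, φ (x ⊔ y) ≤ φ x + φ y

/-- The elements `d 0`, `d 1`, ... are pairwise disjoint. -/
def DisjointSeq {B : Type*} [BooleanAlgebra B] (d : ℕ → B) : Prop :=
  ∀ i j, i ≠ j → Disjoint (d i) (d j)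

section

variable {B : Type*} [BooleanAlgebra B]

theorem rest_vanishing {d : ℕ → B} {b : B} (hb : IsLUB (Set.range d) b) :
    Vanishing (Rest d b) := by
  refine ⟨fun m n hmn => sdiff_le_sdiff_left (Finset.sup_mono (Finset.range_mono hmn)), ?_, ?_⟩
  · rintro y ⟨n, rfl⟩
    exact bot_le
  · intro w hw
    have h1 : w ≤ b := by
      have := hw ⟨0, rfl⟩
      exact this.trans sdiff_le
    have h2 : b ≤ wᶜ := by
      refine hb.2 ?_
      rintro y ⟨n, rfl⟩
      have h3 := hw ⟨n + 1, rfl⟩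
      have h4 : d n ≤ (Finset.range (n + 1)).sup d := Finset.le_sup (Finset.self_mem_range_succ n)
      rw [le_compl_iff_disjoint_right]
      exact (disjoint_sdiff_self_right :
        Disjoint ((Finset.range (n + 1)).sup d) (b \ (Finset.range (n + 1)).sup d)).mono h4 h3
    have h5 : w ≤ wᶜ := h1.trans h2
    rw [le_compl_iff_disjoint_right, disjoint_self] at h5
    rw [h5]

theorem triangular_submeasure {φ : B → ℝ≥0∞} (hφ : Submeasure φ) : Triangular φ 0 := by
  intro W hW
  obtain ⟨ε, hε, h1⟩ := ENNReal.nhds_zero_basis.mem_iff.1 hW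
  refine ⟨Set.Iio (ε / 2), ENNReal.nhds_zero_basis.mem_of_mem (ENNReal.half_pos hε.ne'), ?_⟩
  intro x y _ hx hy
  refine h1 ?_
  have h2 : φ x + φ y < ε / 2 + ε / 2 := ENNReal.add_lt_add hx hy
  rw [ENNReal.add_halves] at h2
  exact (hφ.2.2 x y).trans_lt h2

theorem triangular_additive {G : Type*} [AddGroup G] [TopologicalSpace G]
    [IsTopologicalAddGroup G] {μ : B → G} (hμ : FinAdditive μ) : Triangular μ 0 := by
  intro W hW
  obtain ⟨W', hW', h1⟩ := exists_nhds_zero_half hW
  refine ⟨W', hW', fun x y hxy hx hy => ?_⟩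
  rw [hμ x y hxy]
  exact h1 _ hx _ hy

theorem additive_bot {G : Type*} [AddGroup G] {μ : B → G} (hμ : FinAdditive μ) : μ ⊥ = 0 := by
  have h := hμ ⊥ ⊥ disjoint_bot_left
  rw [sup_bot_eq] at h
  exact left_eq_add.1 h

theorem additive_sup {G : Type*} [AddCommGroup G] {μ : B → G} (hμ : FinAdditive μ) {d : ℕ → B}
    (hd : DisjointSeq d) (F : Finset ℕ) : μ (F.sup d) = ∑ i ∈ F, μ (d i) := by
  classical
  induction F using Finset.induction_on with
  | empty => simp [additive_bot hμ]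
  | insert n F hn ih =>
    rw [Finset.sup_insert, Finset.sum_insert hn, ← ih]
    refine hμ _ _ ?_
    rw [Finset.disjoint_sup_right]
    intro i hi
    exact hd n i fun h => hn (h ▸ hi)

theorem additive_rest {G : Type*} [AddCommGroup G] {μ : B → G} (hμ : FinAdditive μ) {d : ℕ → B}
    (hd : DisjointSeq d) {b : B} (hb : IsLUB (Set.range d) b) (n : ℕ) :
    μ b = ∑ i ∈ Finset.range n, μ (d i) + μ (Rest d b n) := by
  have h1 : Disjoint ((Finset.range n).sup d) (Rest d b n) := disjoint_sdiff_self_right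
  rw [← additive_sup hμ hd, ← hμ _ _ h1]
  congr 1
  rw [Rest, sup_sdiff_cancel_right]
  exact Finset.sup_le fun i _ => hb.1 ⟨i, rfl⟩

theorem tendsto_sum {G : Type*} [AddCommGroup G] [TopologicalSpace G]
    [IsTopologicalAddGroup G] {μ : B → G} (hμ : FinAdditive μ) {d : ℕ → B}
    (hd : DisjointSeq d) {b : B} (hb : IsLUB (Set.range d) b)
    (h : Tendsto (fun n => μ (Rest d b n)) atTop (𝓝 0)) :
    Tendsto (fun n => ∑ i ∈ Finset.range n, μ (d i)) atTop (𝓝 (μ b)) := by
  have h1 : (fun n => ∑ i ∈ Finset.range n, μ (d i)) = fun n => μ b - μ (Rest d b n) := by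
    funext n
    rw [additive_rest hμ hd hb n, add_sub_cancel_right]
  rw [h1]
  have h2 := (tendsto_const_nhds (x := μ b) (f := (atTop : Filter ℕ))).sub h
  rwa [sub_zero] at h2

theorem summable_abs {μ : B → ℝ} (hμ : FinAdditive μ) {M : ℝ} (hM : ∀ x, |μ x| ≤ M) {d : ℕ → B}
    (hd : DisjointSeq d) : Summable fun n => |μ (d n)| := by
  classical
  refine summable_of_sum_le (c := M + M) (fun n => abs_nonneg _) fun F => ?_
  have h1 : ∑ i ∈ F, |μ (d i)| = ∑ i ∈ F.filter (fun i => 0 ≤ μ (d i)), |μ (d i)| +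
      ∑ i ∈ F.filter (fun i => ¬ 0 ≤ μ (d i)), |μ (d i)| :=
    (Finset.sum_filter_add_sum_filter_not _ _ _).symm
  have h2 : ∑ i ∈ F.filter (fun i => 0 ≤ μ (d i)), |μ (d i)| ≤ M := by
    have h3 : ∑ i ∈ F.filter (fun i => 0 ≤ μ (d i)), |μ (d i)| =
        ∑ i ∈ F.filter (fun i => 0 ≤ μ (d i)), μ (d i) :=
      Finset.sum_congr rfl fun i hi => abs_of_nonneg (Finset.mem_filter.1 hi).2
    rw [h3, ← additive_sup hμ hd]
    exact (le_abs_self _).trans (hM _)
  have h4 : ∑ i ∈ F.filter (fun i => ¬ 0 ≤ μ (d i)), |μ (d i)| ≤ M := by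
    have h3 : ∑ i ∈ F.filter (fun i => ¬ 0 ≤ μ (d i)), |μ (d i)| =
        -∑ i ∈ F.filter (fun i => ¬ 0 ≤ μ (d i)), μ (d i) := by
      rw [← Finset.sum_neg_distrib]
      exact Finset.sum_congr rfl fun i hi =>
        abs_of_neg (not_le.1 (Finset.mem_filter.1 hi).2)
    rw [h3, ← additive_sup hμ hd]
    exact (neg_le_abs _).trans (hM _)
  rw [h1]
  exact add_le_add h2 h4

theorem exhaustive_of_bounded {μ : B → ℝ} (hμ : FinAdditive μ) {M : ℝ} (hM : ∀ x, |μ x| ≤ M) :
    Exhaustive μ 0 := by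
  intro d hd
  have h1 := (summable_abs hμ hM hd).tendsto_atTop_zero
  exact squeeze_zero_norm (fun n => by simp) h1

theorem hasSum_of_bounded {μ : B → ℝ} (hμ : FinAdditive μ) {M : ℝ} (hM : ∀ x, |μ x| ≤ M)
    {d : ℕ → B} (hd : DisjointSeq d) {b : B} (hb : IsLUB (Set.range d) b)
    (h : Tendsto (fun n => μ (Rest d b n)) atTop (𝓝 0)) :
    HasSum (fun n => μ (d n)) (μ b) := by
  have h1 : Summable fun n => μ (d n) := (summable_abs hμ hM hd).of_abs
  have h2 := h1.hasSum
  have h3 := tendsto_nhds_unique h2.tendsto_sum_nat (tendsto_sum hμ hd hb h)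
  rwa [h3] at h2

/-- Homomorphisms which respect the infima of vanishing sequences respect countable suprema. -/
theorem hom_isLUB {C : Type*} [BooleanAlgebra C] (h : B → C)
    (hsup : ∀ x y, h (x ⊔ y) = h x ⊔ h y) (hbot : h ⊥ = ⊥)
    {d : ℕ → B} {b : B} (hb : IsLUB (Set.range d) b)
    (hr : IsGLB (Set.range fun n => h (Rest d b n)) ⊥) :
    IsLUB (Set.range fun n => h (d n)) (h b) := by
  classical
  have hmono : ∀ x y, x ≤ y → h x ≤ h y := by
    intro x y hxy
    have h1 := hsup x y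
    rw [sup_eq_right.2 hxy] at h1
    rw [h1]
    exact le_sup_left
  refine ⟨?_, fun c hc => ?_⟩
  · rintro y ⟨n, rfl⟩
    exact hmono _ _ (hb.1 ⟨n, rfl⟩)
  · rw [← sdiff_eq_bot_iff, ← le_bot_iff]
    refine hr.2 ?_
    rintro y ⟨n, rfl⟩
    rw [sdiff_le_iff]
    have h1 : b ≤ (Finset.range n).sup d ⊔ Rest d b n := le_sup_sdiff
    refine (hmono _ _ h1).trans ?_
    rw [hsup]
    refine sup_le_sup_right ?_ _
    have h2 : ∀ F : Finset ℕ, h (F.sup d) ≤ c := by
      intro F
      induction F using Finset.induction_on with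
      | empty => simp [hbot]
      | insert n F hn ih =>
        rw [Finset.sup_insert, hsup]
        exact sup_le (hc ⟨n, rfl⟩) ih
    exact h2 _

end

end Pool.Agent.Helper38.TDM
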