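import Mathlib
import Pool.Graph.R_seed8.H565R2.FO2.Myc

/-!
# Cantor sets in general position with respect to lists of reals

Auxiliary file for the result `FreeSets` of the page MP_917879_lc.
-/

set_option autoImplicit false

namespace Pool.Agent.Helper38.TDM

open Filter Topology Set

/-- The real `v` lists all elements of `S` (as its columns, possibly together with other reals). -/
def Lists (v : ℕ → Bool) (S : Set (ℕ → Bool)) : Prop :=
  ∀ x ∈ S, ∃ n, ∀ m, x m = v (Nat.pair n m)

theorem exists_lists {S : Set (ℕ → Bool)} (hS : S.Countable) : ∃ v, Lists v S := by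
  obtain ⟨f, hf⟩ := Set.countable_iff_exists_subset_range.1 hS
  refine ⟨fun k => f k.unpair.1 k.unpair.2, fun x hx => ?_⟩
  obtain ⟨n, rfl⟩ := hf hx
  exact ⟨n, fun m => by simp⟩

theorem exists_ne_mem {U : Set (ℕ → Bool)} (hU : IsOpen U) {a : ℕ → Bool} (ha : a ∈ U) :
    ∃ a' ∈ U, a' ≠ a := by
  have h1 : Tendsto (fun n => Function.update a n (!a n)) atTop (𝓝 a) := by
    rw [tendsto_pi_nhds]
    intro i
    refine tendsto_const_nhds.congr' ?_
    filter_upwards [eventually_gt_atTop i] with n hn
    rw [Function.update_of_ne (by omega)]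
  obtain ⟨n, hn⟩ := (h1.eventually (hU.mem_nhds ha)).exists
  refine ⟨_, hn, fun h => ?_⟩
  have h2 := congrFun h n
  rw [Function.update_self] at h2
  revert h2
  cases a n <;> simp

/-- Relations with at most one point in each horizontal section have a dense complement. -/
theorem dense_of_sections {R : Set ((ℕ → Bool) × (ℕ → Bool))}
    (hR : ∀ a a' b, (a, b) ∈ R → (a', b) ∈ R → a = a') : Dense Rᶜ := by
  rw [dense_iff_inter_open]
  rintro U hU ⟨⟨a, b⟩, hab⟩
  by_cases h : (a, b) ∈ R
  · have h1 : IsOpen {a' | (a', b) ∈ U} :=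
      hU.preimage (continuous_id.prodMk continuous_const)
    obtain ⟨a', h2, h3⟩ := exists_ne_mem h1 hab
    exact ⟨(a', b), h2, fun h4 => h3 (hR _ _ _ h4 h)⟩
  · exact ⟨(a, b), hab, h⟩

/-- A Cantor set can be shrunk in such a way that none of its points is listed by the value of a
given continuous function at a different point. -/
theorem exists_free {p q : (ℕ → Bool) → ℕ → Bool} (hp : Continuous p) (hp' : Function.Injective p)
    (hq : Continuous q) : ∃ k : (ℕ → Bool) → ℕ → Bool, Continuous k ∧ Function.Injective k ∧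
      ∀ c c', c ≠ c' → ∀ n, ∃ m, p (k c) m ≠ q (k c') (Nat.pair n m) := by
  let R : ℕ → Set ((ℕ → Bool) × (ℕ → Bool)) := fun n => Nat.casesOn n {z | z.1 = z.2}
    fun n => {z | ∀ m, p z.1 m = q z.2 (Nat.pair n m)}
  have hcl : ∀ n, IsClosed (R n) := by
    rintro (_ | n)
    · exact isClosed_eq continuous_fst continuous_snd
    · have : R (n + 1) = ⋂ m, {z : (ℕ → Bool) × (ℕ → Bool) | p z.1 m = q z.2 (Nat.pair n m)} := by
        ext z
        simp [R]
      rw [this]
      exact isClosed_iInter fun m => isClosed_eq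
        ((continuous_apply m).comp (hp.comp continuous_fst))
        ((continuous_apply _).comp (hq.comp continuous_snd))
  have hd : ∀ n, Dense (R n)ᶜ := by
    rintro (_ | n)
    · exact dense_of_sections fun a a' b h h' => Eq.trans h (Eq.symm h')
    · refine dense_of_sections fun a a' b h h' => hp' ?_
      funext m
      exact (h m).trans (h' m).symm
  obtain ⟨k, h1, h2⟩ := Pool.Agent.H565R2.FO2.mycielski' (fun n => (R n)ᶜ)
    (fun n => (hcl n).isOpen_compl) hd
  refine ⟨k, h1, fun c c' h => ?_, fun c c' h n => ?_⟩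
  · by_contra hne
    exact h2 c c' hne 0 h
  · by_contra hcon
    push Not at hcon
    exact h2 c c' h (n + 1) hcon

end Pool.Agent.Helper38.TDM
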