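import Pool.Graph.R_pool_sql_team_seeded_63374d34.N620.WP.Pos
import Pool.Agent.Helper38.TDM.Free

/-!
# Bernstein sets, the Baire property, measurability and the Menger property

Auxiliary file for the result `PerfectSetDichotomy` of the page MP_917879_lc.
-/

set_option autoImplicit false

namespace Pool.Agent.Helper38.TDM

open Filter Topology Set MeasureTheory
open Pool.Agent.N620.WP (exists_cantor)

/-- `h` parametrizes a Cantor set. -/
def IsCantor (h : (ℕ → Bool) → ℕ → Bool) : Prop := Continuous h ∧ Function.Injective h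

/-- `B` is a Bernstein set: `B` and its complement meet all Cantor sets. -/
def Bernstein (B : Set (ℕ → Bool)) : Prop :=
  ∀ k, IsCantor k → (∃ c, k c ∈ B) ∧ ∃ c, k c ∉ B

/-- The Menger property: from every sequence of open covers of `A` finite subfamilies can be chosen
which together cover `A`. -/
def Menger (A : Set (ℕ → Bool)) : Prop :=
  ∀ 𝒰 : ℕ → Set (Set (ℕ → Bool)), (∀ n, ∀ U ∈ 𝒰 n, IsOpen U) → (∀ n, A ⊆ ⋃₀ 𝒰 n) →
    ∃ 𝒱 : ℕ → Set (Set (ℕ → Bool)), (∀ n, 𝒱 n ⊆ 𝒰 n ∧ (𝒱 n).Finite) ∧ A ⊆ ⋃ n, ⋃₀ 𝒱 n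

theorem IsCantor.comp {h k : (ℕ → Bool) → ℕ → Bool} (hh : IsCantor h) (hk : IsCantor k) :
    IsCantor fun c => h (k c) := ⟨hh.1.comp hk.1, hh.2.comp hk.2⟩

theorem Bernstein.preimage {B : Set (ℕ → Bool)} (hB : Bernstein B) {h : (ℕ → Bool) → ℕ → Bool}
    (hh : IsCantor h) : Bernstein (h ⁻¹' B) := fun _ hk => hB _ (hh.comp hk)

theorem isCantor_id : IsCantor fun c => c := ⟨continuous_id, Function.injective_id⟩

theorem Bernstein.nonempty {B : Set (ℕ → Bool)} (hB : Bernstein B) : B.Nonempty :=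
  (hB _ isCantor_id).1

/-! ### The Menger property -/

theorem Menger.preimage {A : Set (ℕ → Bool)} (hA : Menger A) {h : (ℕ → Bool) → ℕ → Bool}
    (hh : IsCantor h) (hne : (h ⁻¹' A).Nonempty) : Menger (h ⁻¹' A) := by
  intro 𝒰 ho hc
  let Q : Set (ℕ → Bool) → Set (ℕ → Bool) := fun U => (h '' Uᶜ)ᶜ
  have hQ : ∀ U c, h c ∈ Q U ↔ c ∈ U := by
    intro U c
    constructor
    · intro h1
      by_contra h2
      exact h1 ⟨c, h2, rfl⟩
    · rintro h1 ⟨c', h2, h3⟩
      exact h2 (hh.2 h3 ▸ h1)
  have hA1 : ∀ n, ∀ U ∈ Q '' 𝒰 n, IsOpen U := by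
    rintro n _ ⟨U, hU, rfl⟩
    exact ((ho n U hU).isClosed_compl.isCompact.image hh.1).isClosed.isOpen_compl
  have hA2 : ∀ n, A ⊆ ⋃₀ (Q '' 𝒰 n) := by
    intro n a ha
    by_cases h3 : a ∈ Set.range h
    · obtain ⟨c, rfl⟩ := h3
      obtain ⟨U, hU, hcU⟩ := hc n ha
      exact ⟨Q U, ⟨U, hU, rfl⟩, (hQ U c).2 hcU⟩
    · obtain ⟨c, hc'⟩ := hne
      obtain ⟨U, hU, -⟩ := hc n hc'
      exact ⟨Q U, ⟨U, hU, rfl⟩, fun ⟨c', _, h5⟩ => h3 ⟨c', h5⟩⟩
  obtain ⟨𝒱, h1, h2⟩ := hA (fun n => Q '' 𝒰 n) hA1 hA2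
  have h3 : ∀ n, ∃ 𝒲 : Set (Set (ℕ → Bool)), 𝒲 ⊆ 𝒰 n ∧ 𝒲.Finite ∧ 𝒱 n ⊆ Q '' 𝒲 := by
    intro n
    obtain ⟨𝒲, h3, h4, h5⟩ := Set.exists_subset_image_finite_and.1 ⟨𝒱 n, (h1 n).1, (h1 n).2,
      (subset_rfl : 𝒱 n ⊆ 𝒱 n)⟩
    exact ⟨𝒲, h3, h4, h5⟩
  choose 𝒲 h4 h5 h6 using h3
  refine ⟨𝒲, fun n => ⟨h4 n, h5 n⟩, fun c hc' => ?_⟩
  obtain ⟨n, V, hV, hV'⟩ : ∃ n, ∃ V ∈ 𝒱 n, h c ∈ V := by
    simpa using h2 hc'
  obtain ⟨U, hU, rfl⟩ := h6 n hV
  exact Set.mem_iUnion.2 ⟨n, U, hU, (hQ U c).1 hV'⟩

theorem agree_nhds (y : ℕ → Bool) (n : ℕ) : {y' : ℕ → Bool | ∀ j < n, y' j = y j} ∈ 𝓝 y := by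
  have h1 : {y' : ℕ → Bool | ∀ j < n, y' j = y j} =
      ⋂ j ∈ Set.Iio n, {y' : ℕ → Bool | y' j = y j} := by
    ext y'
    simp
  rw [h1]
  refine (Set.Finite.isOpen_biInter (Set.finite_Iio _) fun j _ => ?_).mem_nhds (by simp)
  have h2 : IsOpen ((fun y' : ℕ → Bool => y' j) ⁻¹' {y j}) :=
    (isOpen_discrete _).preimage (continuous_apply j)
  exact h2

/-- The current point of `C` after reading `n` bits. -/
def cur (c0 : ℕ → Bool) (g : ℕ → (ℕ → Bool) → ℕ → Bool) (y : ℕ → Bool) : ℕ → ℕ → Bool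
  | 0 => c0
  | n + 1 => if y n = true then g n (cur c0 g y n) else cur c0 g y n

theorem exists_flip {C : Set (ℕ → Bool)} (hC : ∀ k, IsCantor k → ∃ c, k c ∈ C) (n : ℕ)
    (x : ℕ → Bool) : ∃ z ∈ C, (∀ i < n, z i = x i) ∧ z n = !x n := by
  have hk : IsCantor fun c i => if i < n then x i else if i = n then !x n else c (i - (n + 1)) := by
    constructor
    rotate_left
    · intro c c' h
      funext i
      have h1 := congrFun h (i + (n + 1))
      have h2 : ¬ i + (n + 1) < n := by omega
      have h3 : ¬ i + (n + 1) = n := by omega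
      simp only [if_neg h2, if_neg h3, Nat.add_sub_cancel] at h1
      exact h1
    refine continuous_pi fun i => ?_
    by_cases h1 : i < n
    · simp only [if_pos h1]
      exact continuous_const
    · by_cases h2 : i = n
      · simp only [if_neg h1, if_pos h2]
        exact continuous_const
      · simp only [if_neg h1, if_neg h2]
        exact continuous_apply _
  obtain ⟨c, hc⟩ := hC _ hk
  refine ⟨_, hc, fun i hi => ?_, ?_⟩
  · simp only [if_pos hi]
  · simp

/-- If `C` meets all Cantor sets, then there is a Cantor set whose rational points are in `C`. -/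
theorem exists_rational {C : Set (ℕ → Bool)} (hC : ∀ k, IsCantor k → ∃ c, k c ∈ C) :
    ∃ k, IsCantor k ∧ ∀ y : ℕ → Bool, (∃ n, ∀ i, n ≤ i → y i = false) → k y ∈ C := by
  obtain ⟨c0, hc0⟩ : ∃ c0, c0 ∈ C := hC _ isCantor_id
  choose g hg1 hg2 hg3 using fun n x => exists_flip hC n x
  have h1 : ∀ y n, cur c0 g y n ∈ C := by
    intro y n
    induction n with
    | zero => exact hc0
    | succ n ih =>
      rw [cur]
      split_ifs
      · exact hg1 _ _
      · exact ih
  have h2 : ∀ y n i, i < n → cur c0 g y (n + 1) i = cur c0 g y n i := by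
    intro y n i hi
    rw [cur]
    split_ifs
    · exact hg2 _ _ i hi
    · rfl
  have h3 : ∀ y m i, i < m → cur c0 g y m i = cur c0 g y (i + 1) i := by
    intro y m i hi
    induction m, hi using Nat.le_induction with
    | base => rfl
    | succ m hm ih => rw [h2 y m i hm, ih]
  have h4 : ∀ y y' : ℕ → Bool, ∀ n, (∀ i < n, y i = y' i) → cur c0 g y n = cur c0 g y' n := by
    intro y y' n
    induction n with
    | zero => intro _; rfl
    | succ n ih =>
      intro h
      rw [cur, cur, ih fun i hi => h i (by omega), h n (by omega)]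
  refine ⟨fun y i => cur c0 g y (i + 1) i, ⟨?_, ?_⟩, ?_⟩
  · refine continuous_pi fun i => ?_
    rw [continuous_iff_continuousAt]
    intro y
    have h5 := agree_nhds y (i + 1)
    refine (continuousAt_const (y := cur c0 g y (i + 1) i)).congr ?_
    filter_upwards [h5] with y' hy'
    rw [h4 y' y (i + 1) hy']
  · intro y y' h
    by_contra hne
    obtain ⟨n, hn, hlt⟩ : ∃ n, y n ≠ y' n ∧ ∀ i < n, y i = y' i := by
      have h5 := Function.ne_iff.1 hne
      classical
      exact ⟨Nat.find h5, Nat.find_spec h5, fun i hi => by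
        by_contra h6
        exact Nat.find_min h5 hi h6⟩
    have h5 := congrFun h n
    simp only [cur] at h5
    rw [h4 y y' n hlt] at h5
    have h6 := hg3 n (cur c0 g y' n)
    generalize hb : y n = b at h5 hn
    generalize hb' : y' n = b' at h5 hn
    cases b <;> cases b'
    · exact hn rfl
    · simp only [Bool.false_eq_true, if_false, if_true] at h5
      rw [h6] at h5
      revert h5
      cases cur c0 g y' n n <;> simp
    · simp only [Bool.false_eq_true, if_false, if_true] at h5
      rw [h6] at h5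
      revert h5
      cases cur c0 g y' n n <;> simp
    · exact hn rfl
  · rintro y ⟨n, hn⟩
    have h5 : ∀ m, n ≤ m → cur c0 g y m = cur c0 g y n := by
      intro m hm
      induction m, hm using Nat.le_induction with
      | base => rfl
      | succ m hm ih =>
        rw [cur, if_neg (by simp [hn m hm]), ih]
    have h6 : (fun i => cur c0 g y (i + 1) i) = cur c0 g y n := by
      funext i
      rw [← h3 y (max n (i + 1)) i (by omega), h5 _ (by omega)]
    change (fun i => cur c0 g y (i + 1) i) ∈ C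
    rw [h6]
    exact h1 y n

/-- The number of places below `m` where `y` is true. -/
def cnt (y : ℕ → Bool) (m : ℕ) : ℕ := ((Finset.range m).filter fun i => y i = true).card

theorem cnt_mono (y : ℕ → Bool) {m m' : ℕ} (h : m ≤ m') : cnt y m ≤ cnt y m' :=
  Finset.card_le_card fun i hi => by
    simp only [Finset.mem_filter, Finset.mem_range] at hi ⊢
    exact ⟨by omega, hi.2⟩

theorem isOpen_cnt (n m : ℕ) : IsOpen {y | n < cnt y m} := by
  have h : Continuous fun y : ℕ → Bool => cnt y m := by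
    have h1 : (fun y : ℕ → Bool => cnt y m) =
        fun y => ∑ i ∈ Finset.range m, if y i = true then 1 else 0 := by
      funext y
      rw [cnt, Finset.card_filter]
    rw [h1]
    refine continuous_finsetSum _ fun i _ => ?_
    exact (continuous_of_discreteTopology (f := fun b : Bool => if b = true then 1 else 0)).comp
      (continuous_apply i)
  exact (isOpen_discrete (Set.Ioi n)).preimage h

theorem exists_lt_cnt {y : ℕ → Bool} (hy : ¬ ∃ n, ∀ i, n ≤ i → y i = false) (n : ℕ) :
    ∃ m, n < cnt y m := by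
  push Not at hy
  induction n with
  | zero =>
    obtain ⟨i, -, hi⟩ := hy 0
    refine ⟨i + 1, Finset.card_pos.2 ⟨i, ?_⟩⟩
    simpa using hi
  | succ n ih =>
    obtain ⟨m, hm⟩ := ih
    obtain ⟨i, hi, hi'⟩ := hy m
    refine ⟨i + 1, ?_⟩
    have h1 : cnt y m < cnt y (i + 1) := by
      refine Finset.card_lt_card ⟨fun j hj => ?_, fun h => ?_⟩
      · simp only [Finset.mem_filter, Finset.mem_range] at hj ⊢
        exact ⟨by omega, hj.2⟩
      · have h2 := h (show i ∈ (Finset.range (i + 1)).filter fun i => y i = true by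
          simpa using hi')
        simp only [Finset.mem_filter, Finset.mem_range] at h2
        omega
    omega

/-- Bernstein sets do not have the Menger property. -/
theorem Menger.not_bernstein {A : Set (ℕ → Bool)} (hA : Menger A) : ¬ Bernstein A := by
  intro hB
  obtain ⟨k, hk, hk'⟩ := exists_rational (C := Aᶜ) fun k hk => (hB k hk).2
  set B := k ⁻¹' A with hBdef
  have hB1 : Bernstein B := hB.preimage hk
  have hM : Menger B := hA.preimage hk hB1.nonempty
  have hM1 : ∀ n, ∀ U ∈ Set.range fun m => {y : ℕ → Bool | n < cnt y m}, IsOpen U := by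
    rintro n _ ⟨m, rfl⟩
    exact isOpen_cnt n m
  have hM2 : ∀ n, B ⊆ ⋃₀ Set.range fun m => {y : ℕ → Bool | n < cnt y m} := by
    intro n y hy
    obtain ⟨m, hm⟩ := exists_lt_cnt (y := y) (fun h => hk' y h hy) n
    exact ⟨_, ⟨m, rfl⟩, hm⟩
  obtain ⟨𝒱, h1, h2⟩ := hM (fun n => Set.range fun m => {y | n < cnt y m}) hM1 hM2
  have h3 : ∀ n, ∃ m, ⋃₀ 𝒱 n ⊆ {y | n < cnt y m} := by
    intro n
    have h4 : ∀ V ∈ 𝒱 n, ∃ m, V = {y | n < cnt y m} := fun V hV => by
      obtain ⟨m, hm⟩ := (h1 n).1 hV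
      exact ⟨m, hm.symm⟩
    classical
    choose! f hf using h4
    refine ⟨(h1 n).2.toFinset.sup f, ?_⟩
    rintro y ⟨V, hV, hy⟩
    rw [hf V hV] at hy
    exact lt_of_lt_of_le hy (cnt_mono y (Finset.le_sup ((h1 n).2.mem_toFinset.2 hV)))
  choose m hm using h3
  -- a strictly increasing sequence above `m`
  let M : ℕ → ℕ := fun n => n + ∑ i ∈ Finset.range (n + 1), m i
  have hMm : StrictMono M := strictMono_nat_of_lt_succ fun n => by
    simp only [M, Finset.sum_range_succ _ (n + 1)]
    omega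
  have hMM : ∀ n, m n ≤ M n := fun n => by
    simp only [M, Finset.sum_range_succ _ n]
    omega
  let t : (ℕ → Bool) → ℕ → ℕ := fun z n => 2 * M n + (z n).toNat
  have ht : ∀ z, StrictMono (t z) := fun z => strictMono_nat_of_lt_succ fun n => by
    have h4 := hMm (Nat.lt_succ_self n)
    have h5 := (z n).toNat_le
    simp only [t, Nat.succ_eq_add_one] at h4 ⊢
    omega
  classical
  let h : (ℕ → Bool) → ℕ → Bool := fun z i => decide (∃ n, i = t z n)
  have hval : ∀ z n, h z (2 * M n + 1) = z n := by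
    intro z n
    rw [Bool.eq_iff_iff]
    simp only [h, decide_eq_true_eq]
    constructor
    · rintro ⟨n', hn'⟩
      have h4 : n' = n := by
        have h5 : M n' = M n := by
          have := (z n').toNat_le
          simp only [t] at hn'
          omega
        exact hMm.injective h5
      subst h4
      by_contra h5
      simp only [Bool.not_eq_true] at h5
      simp [t, h5] at hn'
    · intro h4
      exact ⟨n, by simp [t, h4]⟩
  have hcan : IsCantor h := by
    refine ⟨continuous_pi fun i => ?_, fun z z' hzz => ?_⟩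
    · have h4 : ∀ z : ℕ → Bool, h z i = decide (∃ n ∈ Finset.range (i + 1), i = t z n) := by
        intro z
        simp only [h]
        congr 1
        rw [eq_iff_iff]
        constructor
        · rintro ⟨n, hn⟩
          refine ⟨n, ?_, hn⟩
          have := (ht z).id_le n
          simp only [id] at this
          simp only [Finset.mem_range]
          omega
        · rintro ⟨n, -, hn⟩
          exact ⟨n, hn⟩
      rw [continuous_iff_continuousAt]
      intro z
      have h5 := agree_nhds z (i + 1)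
      refine (continuousAt_const (y := h z i)).congr ?_
      filter_upwards [h5] with z' hz'
      rw [h4 z, h4 z']
      congr 1
      rw [eq_iff_iff]
      constructor
      · rintro ⟨n, hn, hn'⟩
        exact ⟨n, hn, by simpa [t, hz' n (by simpa using hn)] using hn'⟩
      · rintro ⟨n, hn, hn'⟩
        exact ⟨n, hn, by simpa [t, hz' n (by simpa using hn)] using hn'⟩
    · funext n
      rw [← hval z n, ← hval z' n, hzz]
  obtain ⟨⟨z, hz⟩, -⟩ := hB1 h hcan
  obtain ⟨n, hn⟩ := Set.mem_iUnion.1 (h2 hz)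
  have h4 : n < cnt (h z) (m n) := hm n hn
  have h5 : cnt (h z) (m n) ≤ n := by
    have h6 : ((Finset.range (m n)).filter fun i => h z i = true) ⊆
        (Finset.range n).image (t z) := by
      intro i hi
      simp only [Finset.mem_filter, Finset.mem_range, h, decide_eq_true_eq] at hi
      obtain ⟨hi1, j, rfl⟩ := hi
      refine Finset.mem_image.2 ⟨j, ?_, rfl⟩
      simp only [Finset.mem_range]
      by_contra hj
      have h7 := (ht z).monotone (not_lt.1 hj)
      have h8 := hMM n
      simp only [t] at h7 hi1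
      omega
    exact (Finset.card_le_card h6).trans (Finset.card_image_le.trans (by simp))
  omega

/-! ### The Baire property -/

theorem residual_cantor {D U : Set (ℕ → Bool)} (hD : D ∈ residual (ℕ → Bool)) (hU : IsOpen U)
    (hne : U.Nonempty) : ∃ k, IsCantor k ∧ ∀ c, k c ∈ D ∩ U := by
  obtain ⟨t, htD, hG, hd⟩ := mem_residual.1 hD
  obtain ⟨k, h1, h2, h3⟩ := exists_cantor (B := t ∩ U) (hG.measurableSet.inter hU.measurableSet)
    fun hc => by
      have h1 : ∀ x : ℕ → Bool, {x}ᶜ ∈ residual (ℕ → Bool) := fun x =>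
        residual_of_dense_open isOpen_compl_singleton (dense_iff_inter_open.2 fun V hV hVne => by
          obtain ⟨a, ha⟩ := hVne
          by_cases h : a = x
          · subst h
            obtain ⟨a', ha', hne'⟩ := exists_ne_mem hV ha
            exact ⟨a', ha', hne'⟩
          · exact ⟨a, ha, h⟩)
      have h2 : (⋂ x ∈ t ∩ U, {x}ᶜ) ∈ residual (ℕ → Bool) :=
        (countable_bInter_mem hc).2 fun x _ => h1 x
      have h3 : t ∈ residual (ℕ → Bool) := mem_residual.2 ⟨t, subset_rfl, hG, hd⟩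
      obtain ⟨y, hyU, hyt, hy⟩ := (dense_of_mem_residual (inter_mem h3 h2)).inter_open_nonempty U hU
        hne
      exact (Set.mem_iInter₂.1 hy y ⟨hyt, hyU⟩) rfl
  exact ⟨k, ⟨h1, h2⟩, fun c => ⟨htD (h3 c).1, (h3 c).2⟩⟩

/-- Bernstein sets do not have the Baire property. -/
theorem baire_not_bernstein {B : Set (ℕ → Bool)} (hB : BaireMeasurableSet B) : ¬ Bernstein B := by
  intro h
  obtain ⟨u, hu, hBu⟩ := hB.residualEq_isOpen
  have h1 : {x | x ∈ B ↔ x ∈ u} ∈ residual (ℕ → Bool) := by
    filter_upwards [hBu] with x hx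
    exact iff_of_eq hx
  rcases u.eq_empty_or_nonempty with hne | hne
  · obtain ⟨k, hk, hk'⟩ := residual_cantor h1 isOpen_univ Set.univ_nonempty
    obtain ⟨⟨c, hc⟩, -⟩ := h k hk
    have h2 := (hk' c).1.1 hc
    rw [hne] at h2
    exact h2
  · obtain ⟨k, hk, hk'⟩ := residual_cantor h1 hu hne
    obtain ⟨-, c, hc⟩ := h k hk
    exact hc ((hk' c).1.2 (hk' c).2)

/-! ### Universal measurability -/

theorem exists_noAtoms : ∃ ν : Measure (ℕ → Bool), IsProbabilityMeasure ν ∧ NullSingletonClass ν := by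
  have hc : ¬ Countable (ℕ → Bool) := by
    intro h
    obtain ⟨f, hf⟩ := exists_surjective_nat (ℕ → Bool)
    obtain ⟨n, hn⟩ := hf fun i => !(f i i)
    have h1 := congrFun hn n
    revert h1
    cases f n n <;> simp
  let e : ℝ ≃ᵐ (ℕ → Bool) := PolishSpace.measurableEquivOfNotCountable
    (not_countable_iff.2 inferInstance) hc
  refine ⟨((volume : Measure ℝ).restrict (Set.Icc 0 1)).map e, ?_, ⟨fun x => ?_⟩⟩
  · have : IsProbabilityMeasure ((volume : Measure ℝ).restrict (Set.Icc 0 1)) :=
      ⟨by simp⟩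
    exact Measure.isProbabilityMeasure_map e.measurable.aemeasurable
  · rw [Measure.map_apply e.measurable (measurableSet_singleton x)]
    refine Set.Countable.measure_zero ?_ _
    exact (Set.countable_singleton x).preimage e.injective

/-- Bernstein sets are not universally measurable. -/
theorem measure_not_bernstein {B : Set (ℕ → Bool)}
    (hB : ∀ μ : Measure (ℕ → Bool), IsProbabilityMeasure μ → NullMeasurableSet B μ) :
    ¬ Bernstein B := by
  intro h
  obtain ⟨ν, hν, hν'⟩ := exists_noAtoms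
  have key : ∀ S : Set (ℕ → Bool), NullMeasurableSet S ν → ν S ≠ 0 →
      ∃ k, IsCantor k ∧ ∀ c, k c ∈ S := by
    intro S hS hS'
    obtain ⟨t, ht, ht', hts⟩ := hS.exists_measurable_subset_ae_eq
    obtain ⟨k, h1, h2, h3⟩ := exists_cantor ht' fun hc => hS' (by
      rw [← measure_congr hts]
      exact hc.measure_zero ν)
    exact ⟨k, ⟨h1, h2⟩, fun c => ht (h3 c)⟩
  have h1 := hB ν hν
  by_cases h2 : ν B = 0
  · have h3 : ν Bᶜ ≠ 0 := by
      intro h3
      have h4 : ν Set.univ ≤ ν B + ν Bᶜ := by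
        rw [← Set.union_compl_self B]
        exact measure_union_le _ _
      rw [h2, h3, measure_univ] at h4
      simp at h4
    obtain ⟨k, hk, hk'⟩ := key _ h1.compl h3
    obtain ⟨⟨c, hc⟩, -⟩ := h k hk
    exact hk' c hc
  · obtain ⟨k, hk, hk'⟩ := key _ h1 h2
    obtain ⟨-, c, hc⟩ := h k hk
    exact hc (hk' c)

end Pool.Agent.Helper38.TDM
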