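import Mathlib

/-!
# Set functions on sigma-complete Boolean algebras and reaping families

Auxiliary file for the result `CountableAdditivity` of the page MP_917879_lc.
-/

set_option autoImplicit false

namespace Pool.Agent.Helper38.TDM

open Filter Topology Set

universe u v

/-- Every sequence of elements has a least upper bound. -/
def SigmaComplete (B : Type*) [BooleanAlgebra B] : Prop :=
  ∀ d : ℕ → B, ∃ s, IsLUB (Set.range d) s

/-- The sequence `a` is decreasing with infimum zero. -/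
def Vanishing {B : Type*} [BooleanAlgebra B] (a : ℕ → B) : Prop :=
  Antitone a ∧ IsGLB (Set.range a) ⊥

/-- The differences `a n \ a (n + 1)` with `n` in `S`. -/
def Pieces {B : Type*} [BooleanAlgebra B] (a : ℕ → B) (S : Set ℕ) : Set B :=
  {x | ∃ n ∈ S, x = a n \ a (n + 1)}

/-- The union of the intervals with numbers in `D`. -/
def Ivl (s : ℕ → ℕ) (D : Set ℕ) : Set ℕ := {m | ∃ i ∈ D, s i ≤ m ∧ m < s (i + 1)}

/-- The property `P` of families of sets is enough to get the interval partitions from reaping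
families. -/
def Reaps (P : Set (Set ℕ) → Prop) : Prop :=
  ∀ 𝓡 : Set (Set ℕ), (∀ X : Set ℕ, ∃ R ∈ 𝓡, (R \ X).Finite ∨ (R ∩ X).Finite) → P 𝓡 →
    ∃ s : ℕ → ℕ, StrictMono s ∧ ∀ D : Set ℕ, D.Infinite → ∃ R ∈ 𝓡, (R \ Ivl s D).Finite

section

variable {B : Type*} [BooleanAlgebra B]

theorem exists_sup (hB : SigmaComplete B) (a : ℕ → B) (S : Set ℕ) :
    ∃ x, IsLUB (Pieces a S) x := by
  classical
  obtain ⟨x, hx⟩ := hB fun n => if n ∈ S then a n \ a (n + 1) else ⊥
  refine ⟨x, ?_, fun w hw => hx.2 ?_⟩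
  · rintro y ⟨n, hn, rfl⟩
    refine hx.1 ⟨n, ?_⟩
    simp [hn]
  · rintro y ⟨n, rfl⟩
    by_cases hn : n ∈ S
    · have := hw ⟨n, hn, rfl⟩
      simpa [hn] using this
    · simp [hn]

variable {a : ℕ → B} {U : Set ℕ → B}

theorem sup_mono (hU : ∀ S, IsLUB (Pieces a S) (U S)) {S T : Set ℕ} (h : S ⊆ T) : U S ≤ U T := by
  refine (hU S).2 ?_
  rintro y ⟨n, hn, rfl⟩
  exact (hU T).1 ⟨n, h hn, rfl⟩

theorem sup_union (hU : ∀ S, IsLUB (Pieces a S) (U S)) (S T : Set ℕ) :
    U (S ∪ T) = U S ⊔ U T := by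
  apply le_antisymm
  · refine (hU _).2 ?_
    rintro y ⟨n, hn, rfl⟩
    rcases hn with hn | hn
    · exact ((hU S).1 ⟨n, hn, rfl⟩).trans le_sup_left
    · exact ((hU T).1 ⟨n, hn, rfl⟩).trans le_sup_right
  · exact sup_le (sup_mono hU subset_union_left) (sup_mono hU subset_union_right)

theorem pieces_disjoint (ha : Antitone a) {m n : ℕ} (h : m < n) :
    Disjoint (a m \ a (m + 1)) (a n \ a (n + 1)) := by
  have h1 : a n \ a (n + 1) ≤ a (m + 1) := sdiff_le.trans (ha h)
  exact (disjoint_sdiff_self_left : Disjoint (a m \ a (m + 1)) (a (m + 1))).mono_right h1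

theorem sup_disjoint (ha : Antitone a) (hU : ∀ S, IsLUB (Pieces a S) (U S)) {S T : Set ℕ}
    (h : Disjoint S T) : Disjoint (U S) (U T) := by
  rw [← le_compl_iff_disjoint_right]
  refine (hU S).2 ?_
  rintro y ⟨m, hm, rfl⟩
  rw [le_compl_iff_disjoint_right, disjoint_comm, ← le_compl_iff_disjoint_right]
  refine (hU T).2 ?_
  rintro y ⟨n, hn, rfl⟩
  rw [le_compl_iff_disjoint_right]
  rcases lt_trichotomy m n with h1 | h1 | h1
  · exact (pieces_disjoint ha h1).symm
  · subst h1
    exact absurd hn (Set.disjoint_left.1 h hm)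
  · exact pieces_disjoint ha h1

theorem sup_tail (ha : Vanishing a) (hU : ∀ S, IsLUB (Pieces a S) (U S)) (k : ℕ) :
    U (Set.Ici k) = a k := by
  apply le_antisymm
  · refine (hU _).2 ?_
    rintro y ⟨n, hn, rfl⟩
    exact sdiff_le.trans (ha.1 hn)
  · rw [← sdiff_eq_bot_iff]
    have h1 : ∀ n, a k \ U (Set.Ici k) ≤ a n := by
      intro n
      by_cases hn : n ≤ k
      · exact sdiff_le.trans (ha.1 hn)
      · push Not at hn
        induction n, hn.le using Nat.le_induction with
        | base => exact sdiff_le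
        | succ n hkn ih =>
          have ih' : a k \ U (Set.Ici k) ≤ a n := by
            rcases Nat.eq_or_lt_of_le hkn with h | h
            · rw [← h]; exact sdiff_le
            · exact ih h
          rw [← sdiff_eq_bot_iff, ← le_bot_iff]
          have h2 : (a k \ U (Set.Ici k)) \ a (n + 1) ≤ a n \ a (n + 1) :=
            sdiff_le_sdiff_right ih'
          have h3 : (a k \ U (Set.Ici k)) \ a (n + 1) ≤ U (Set.Ici k) :=
            h2.trans ((hU _).1 ⟨n, hkn, rfl⟩)
          have h4 : (a k \ U (Set.Ici k)) \ a (n + 1) ≤ a k \ U (Set.Ici k) := sdiff_le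
          exact (disjoint_sdiff_self_left : Disjoint (a k \ U (Set.Ici k)) (U (Set.Ici k))) h4 h3
    have h5 := ha.2.2 (show a k \ U (Set.Ici k) ∈ lowerBounds (Set.range a) by
      rintro y ⟨n, rfl⟩
      exact h1 n)
    exact le_bot_iff.1 h5

theorem ivl_disjoint {s : ℕ → ℕ} (hs : StrictMono s) {D D' : Set ℕ} {m : ℕ}
    (h : m ∈ Ivl s D) (h' : m ∈ Ivl s D') : ∃ i ∈ D ∩ D', s i ≤ m ∧ m < s (i + 1) := by
  obtain ⟨i, hi, h1, h2⟩ := h
  obtain ⟨j, hj, h3, h4⟩ := h'
  have : i = j := by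
    rcases lt_trichotomy i j with h5 | h5 | h5
    · have := hs.monotone (show i + 1 ≤ j from h5)
      omega
    · exact h5
    · have := hs.monotone (show j + 1 ≤ i from h5)
      omega
  subst this
  exact ⟨i, ⟨hi, hj⟩, h1, h2⟩

/-! ### exhaustive functions -/

/-- The function `f` tends to `o` along every sequence of pairwise disjoint elements. -/
def Exhaustive {X : Type*} [TopologicalSpace X] (f : B → X) (o : X) : Prop :=
  ∀ d : ℕ → B, (∀ i j, i ≠ j → Disjoint (d i) (d j)) → Tendsto (fun n => f (d n)) atTop (𝓝 o)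

/-- If `f x` and `f y` are close to `o` and `x`, `y` are disjoint, then `f (x ⊔ y)` is close to
`o`. -/
def Triangular {X : Type*} [TopologicalSpace X] (f : B → X) (o : X) : Prop :=
  ∀ W ∈ 𝓝 o, ∃ W' ∈ 𝓝 o, ∀ x y : B, Disjoint x y → f x ∈ W' → f y ∈ W' → f (x ⊔ y) ∈ W

/-- The sets `S` such that for every `k` the supremum of the pieces with numbers in some set
`T ⊆ S \ {0, ..., k - 1}` has its value outside of `W`. -/
def Heavy {X : Type*} (f : B → X) (a : ℕ → B) (W : Set X) : Set (Set ℕ) :=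
  {S | ∀ k : ℕ, ∃ T ⊆ S, (∀ n ∈ T, k ≤ n) ∧ ∃ x, IsLUB (Pieces a T) x ∧ f x ∉ W}

theorem exhaustive_tendsto {P : Set (Set ℕ) → Prop} (hP : Reaps P) (hB : SigmaComplete B)
    {X : Type*} [TopologicalSpace X] {f : B → X} {o : X} (hf : Exhaustive f o)
    (hf' : Triangular f o) {a : ℕ → B} (ha : Vanishing a)
    (hD : ∀ W ∈ 𝓝 o, P (Heavy f a W)) : Tendsto (fun n => f (a n)) atTop (𝓝 o) := by
  choose U hU using exists_sup hB a
  intro W hW
  obtain ⟨W', hW', h1⟩ := hf' W hW
  by_contra hcon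
  rw [Filter.mem_map, ← Filter.eventually_mem_set] at hcon
  change ¬ ∀ᶠ n in atTop, f (a n) ∈ W at hcon
  have hreap : ∀ X : Set ℕ, X ∈ Heavy f a W' ∨ Xᶜ ∈ Heavy f a W' := by
    intro Y
    by_contra hc
    push Not at hc
    obtain ⟨h2, h3⟩ := hc
    simp only [Heavy, Set.mem_ofPred_eq, not_forall, not_exists, not_and, not_not] at h2 h3
    obtain ⟨k1, h2⟩ := h2
    obtain ⟨k2, h3⟩ := h3
    refine hcon ?_
    filter_upwards [eventually_ge_atTop (max k1 k2)] with n hn
    have h4 : a n = U (Y ∩ Set.Ici n) ⊔ U (Yᶜ ∩ Set.Ici n) := by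
      rw [← sup_union hU, ← Set.union_inter_distrib_right, Set.union_compl_self,
        Set.univ_inter, sup_tail ha hU]
    rw [h4]
    refine h1 _ _ (sup_disjoint ha.1 hU ?_) ?_ ?_
    · exact (disjoint_compl_right : Disjoint Y Yᶜ).mono Set.inter_subset_left
        Set.inter_subset_left
    · exact h2 _ Set.inter_subset_left (fun m hm => (le_max_left _ _).trans (hn.trans hm.2)) _
        (hU _)
    · exact h3 _ Set.inter_subset_left (fun m hm => (le_max_right _ _).trans (hn.trans hm.2)) _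
        (hU _)
  obtain ⟨s, hs, h5⟩ := hP (Heavy f a W') (fun Y => by
    rcases hreap Y with h | h
    · exact ⟨Y, h, Or.inl (by simp)⟩
    · exact ⟨Yᶜ, h, Or.inr (by simp)⟩) (hD W' hW')
  -- disjoint infinite sets of intervals
  let D : ℕ → Set ℕ := fun j => {n | ∃ m, n = Nat.pair j m}
  have hDinf : ∀ j, (D j).Infinite := by
    intro j
    refine Set.infinite_of_injective_forall_mem (f := fun m => Nat.pair j m) ?_ ?_
    · intro m m' h
      exact (Nat.pair_eq_pair.1 h).2
    · intro m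
      exact ⟨m, rfl⟩
  have hDdis : ∀ i j, i ≠ j → D i ∩ D j = ∅ := by
    intro i j hij
    ext n
    simp only [D, Set.mem_inter_iff, Set.mem_ofPred_eq, Set.mem_empty_iff_false, iff_false,
      not_and, not_exists]
    rintro ⟨m, rfl⟩ m' h
    exact hij (Nat.pair_eq_pair.1 h).1
  have h6 : ∀ j, ∃ T ⊆ Ivl s (D j), ∃ x, IsLUB (Pieces a T) x ∧ f x ∉ W' := by
    intro j
    obtain ⟨R, hR, hfin⟩ := h5 (D j) (hDinf j)
    obtain ⟨M, hM⟩ := hfin.bddAbove
    obtain ⟨T, hT, hk, x, hx, hx'⟩ := hR (M + 1)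
    refine ⟨T, fun n hn => ?_, x, hx, hx'⟩
    by_contra hc
    have h7 := hM ⟨hT hn, hc⟩
    have h8 := hk n hn
    omega
  choose T hT x hx hx' using h6
  have hxU : ∀ j, x j = U (T j) := fun j => (hx j).unique (hU _)
  have hdis : ∀ i j, i ≠ j → Disjoint (x i) (x j) := by
    intro i j hij
    rw [hxU i, hxU j]
    refine sup_disjoint ha.1 hU (Set.disjoint_left.2 fun m hm hm' => ?_)
    obtain ⟨l, hl, -⟩ := ivl_disjoint hs (hT i hm) (hT j hm')
    rw [hDdis i j hij] at hl
    exact hl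
  have h9 := hf x hdis
  obtain ⟨n, hn⟩ := (h9.eventually hW').exists
  exact hx' n hn

/-! ### homomorphisms -/

/-- All sets of pairwise disjoint elements are countable. -/
def CountableChains (C : Type*) [BooleanAlgebra C] : Prop :=
  ∀ A : Set C, (∀ x ∈ A, ∀ y ∈ A, x ≠ y → Disjoint x y) → A.Countable

/-- The sets `S` for which the images of the suprema of the pieces with numbers in
`S \ {0, ..., k - 1}` have a common lower bound different from zero. -/
def Large {C : Type*} [BooleanAlgebra C] (h : B → C) (a : ℕ → B) : Set (Set ℕ) :=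
  {S | ∃ v : C, v ≠ ⊥ ∧ ∀ k : ℕ, ∀ x, IsLUB (Pieces a (S ∩ Set.Ici k)) x → v ≤ h x}

/-- Almost disjoint infinite sets. -/
def branch (x : ℕ → Bool) : Set ℕ := Set.range fun n => Encodable.encode ((List.range n).map x)

theorem branch_infinite (x : ℕ → Bool) : (branch x).Infinite := by
  refine Set.infinite_range_of_injective ?_
  intro m n h
  have h1 := Encodable.encode_injective h
  have h2 := congrArg List.length h1
  simpa using h2

theorem branch_almost_disjoint {x y : ℕ → Bool} (h : x ≠ y) : (branch x ∩ branch y).Finite := by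
  obtain ⟨k, hk⟩ := Function.ne_iff.1 h
  refine ((Set.finite_Iic k).image fun n => Encodable.encode ((List.range n).map x)).subset ?_
  rintro z ⟨⟨m, rfl⟩, ⟨n, hn⟩⟩
  have h1 := Encodable.encode_injective hn
  have h2 : n = m := by simpa using congrArg List.length h1
  subst h2
  refine ⟨n, ?_, rfl⟩
  by_contra hc
  have h3 : k < n := by
    simp only [Set.mem_Iic, not_le] at hc
    exact hc
  have h4 := (List.map_inj_left.1 h1) k (List.mem_range.2 h3)
  exact hk h4.symm

theorem exists_surj (h : Countable (ℕ → Bool)) :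
    ∃ f : ℕ → ℕ → Bool, Function.Surjective f := by
  obtain ⟨f, hf⟩ := @exists_surjective_nat (ℕ → Bool) _ h
  exact ⟨f, hf⟩

theorem hom_isGLB {P : Set (Set ℕ) → Prop} (hP : Reaps P) (hB : SigmaComplete B)
    {C : Type*} [BooleanAlgebra C] (hC : CountableChains C) (h : B → C)
    (hbot : h ⊥ = ⊥) (hsup : ∀ x y, h (x ⊔ y) = h x ⊔ h y) (hinf : ∀ x y, h (x ⊓ y) = h x ⊓ h y)
    {a : ℕ → B} (ha : Vanishing a) (hD : P (Large h a)) :
    IsGLB (Set.range fun n => h (a n)) ⊥ := by
  choose U hU using exists_sup hB a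
  have hmono : ∀ x y, x ≤ y → h x ≤ h y := by
    intro x y hxy
    have h1 := hsup x y
    rw [sup_eq_right.2 hxy] at h1
    rw [h1]
    exact le_sup_left
  refine ⟨by rintro y ⟨n, rfl⟩; exact bot_le, fun c hc => ?_⟩
  by_contra hc0
  have hc0' : c ≠ ⊥ := fun h0 => hc0 (by rw [h0])
  have hcn : ∀ n, c ≤ h (a n) := fun n => hc ⟨n, rfl⟩
  have hreap : ∀ X : Set ℕ, X ∈ Large h a ∨ Xᶜ ∈ Large h a := by
    intro Y
    by_contra hcon
    push Not at hcon
    obtain ⟨h2, h3⟩ := hcon
    have h2' : ∀ v : C, (∀ k : ℕ, v ≤ h (U (Y ∩ Set.Ici k))) → v = ⊥ := by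
      intro v hv
      by_contra hv0
      exact h2 ⟨v, hv0, fun k x hx => by rw [hx.unique (hU _)]; exact hv k⟩
    have h3' : ∀ v : C, (∀ k : ℕ, v ≤ h (U (Yᶜ ∩ Set.Ici k))) → v = ⊥ := by
      intro v hv
      by_contra hv0
      exact h3 ⟨v, hv0, fun k x hx => by rw [hx.unique (hU _)]; exact hv k⟩
    have h4 : ∀ k, c ≤ h (U (Y ∩ Set.Ici k)) ⊔ h (U (Yᶜ ∩ Set.Ici k)) := by
      intro k
      rw [← hsup, ← sup_union hU, ← Set.union_inter_distrib_right, Set.union_compl_self,
        Set.univ_inter, sup_tail ha hU]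
      exact hcn k
    refine hc0' (h2' c fun m => ?_)
    rw [← sdiff_eq_bot_iff]
    refine h3' _ fun k => ?_
    rw [sdiff_le_iff]
    rcases le_total m k with hmk | hmk
    · refine (h4 k).trans (sup_le_sup_right (hmono _ _ (sup_mono hU ?_)) _)
      exact Set.inter_subset_inter_right _ (Set.Ici_subset_Ici.2 hmk)
    · refine (h4 m).trans (sup_le_sup_left (hmono _ _ (sup_mono hU ?_)) _)
      exact Set.inter_subset_inter_right _ (Set.Ici_subset_Ici.2 hmk)
  obtain ⟨s, hs, h5⟩ := hP (Large h a) (fun Y => by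
    rcases hreap Y with h | h
    · exact ⟨Y, h, Or.inl (by simp)⟩
    · exact ⟨Yᶜ, h, Or.inr (by simp)⟩) hD
  choose R hR hfin using fun x : ℕ → Bool => h5 (branch x) (branch_infinite x)
  choose v hv0 hv using hR
  have hdis : ∀ x y, x ≠ y → Disjoint (v x) (v y) := by
    intro x y hxy
    have h6 : (R x ∩ R y).Finite := by
      have h7 : {m | ∃ i ∈ branch x ∩ branch y, s i ≤ m ∧ m < s (i + 1)}.Finite := by
        have h8 : {m | ∃ i ∈ branch x ∩ branch y, s i ≤ m ∧ m < s (i + 1)} ⊆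
            ⋃ i ∈ branch x ∩ branch y, Set.Iio (s (i + 1)) := by
          rintro m ⟨i, hi, -, h9⟩
          exact Set.mem_biUnion hi h9
        exact ((branch_almost_disjoint hxy).biUnion fun i _ => Set.finite_Iio _).subset h8
      refine ((hfin x).union ((hfin y).union h7)).subset ?_
      rintro m ⟨h8, h9⟩
      by_cases h10 : m ∈ Ivl s (branch x)
      · by_cases h11 : m ∈ Ivl s (branch y)
        · exact Or.inr (Or.inr (ivl_disjoint hs h10 h11))
        · exact Or.inr (Or.inl ⟨h9, h11⟩)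
      · exact Or.inl ⟨h8, h10⟩
    obtain ⟨M, hM⟩ := h6.bddAbove
    have h7 := hv x (M + 1) _ (hU _)
    have h8 := hv y (M + 1) _ (hU _)
    have h9 : Disjoint (U (R x ∩ Set.Ici (M + 1))) (U (R y ∩ Set.Ici (M + 1))) := by
      refine sup_disjoint ha.1 hU (Set.disjoint_left.2 fun m hm hm' => ?_)
      have h10 := hM ⟨hm.1, hm'.1⟩
      have h11 : M + 1 ≤ m := hm.2
      omega
    have h10 : Disjoint (h (U (R x ∩ Set.Ici (M + 1)))) (h (U (R y ∩ Set.Ici (M + 1)))) := by
      rw [disjoint_iff, ← hinf, disjoint_iff.1 h9, hbot]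
    exact h10.mono h7 h8
  have hinj : Function.Injective v := by
    intro x y hxy
    by_contra hne
    have h6 := hdis x y hne
    rw [hxy, disjoint_self] at h6
    exact hv0 y h6
  have h6 := hC (Set.range v) (by
    rintro _ ⟨x, rfl⟩ _ ⟨y, rfl⟩ hne
    exact hdis x y fun h0 => hne (by rw [h0]))
  have h7 : (Set.univ : Set (ℕ → Bool)).Countable := by
    have h8 : (v ⁻¹' Set.range v).Countable := h6.preimage_of_injOn (f := v) hinj.injOn
    exact h8.mono fun x _ => Set.mem_range_self (f := v) x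
  obtain ⟨f, hf⟩ := exists_surj (Set.countable_univ_iff.1 h7)
  obtain ⟨n, hn⟩ := hf fun n => !(f n n)
  have h9 := congrFun hn n
  simp at h9

end

end Pool.Agent.Helper38.TDM
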